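import Pool.Agent.R129.Hfp.Ears

/-!
# `1/2`-flow-pairs: graphs made of few pieces with short ears (MP_e59a69_co)

Let `G` be a bridgeless multigraph and let `C_1, ..., C_m` be sets of edges, each with at most four
edges outside the union of the earlier ones and without a bridge modulo this union (for example
circuits with at most four new edges, or paths with at most four edges whose ends are in the same
component of the union of the earlier ones).  Let `F` be their union.  If at most sixteen components
of the graph `(V, F)` have an odd number of boundary edges in `G`, then `G` has a `1/2`-flow-pair,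
and at every vertex with exactly three edges (loops not counted) every admissible choice of the
values extends to a `1/2`-flow-pair of `G`.

For example, this holds for all bridgeless multigraphs with at most sixteen vertices of odd degree
(`sixteen`, the case `m = 0`), for all graphs with an ear decomposition with ears of length at most
four, and if all but sixteen vertices of `G` are covered by circuits with at most four edges whose
union is connected.  The graphs may have edge cuts with two or three edges, they need not be cubic,
and their order is unbounded.

Proof.  The class is closed under identifications of vertices, and by a result for four-flows (the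
files `R926/SC` of helper926; for `m = 0` the starting library `TH362/TF`) every bridgeless graph
of the class has a nowhere-zero 4-flow or a quotient which is a Petersen graph.  In the first case
every admissible choice of the values at a vertex of degree three extends to a `1/2`-flow-pair
(starting library `TH499/NF`, Hoffman's theorem).  In the second case the vertices of `G` are divided
into ten classes, three edges leave each class, and identification of the vertices outside a class
gives a smaller graph of the same class of graphs, to which induction is applied.  Every admissible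
choice of the values at a vertex of the Petersen graph extends (starting library `H179R3/HF`), and the
flows of the ten graphs can be glued.
-/

set_option autoImplicit false

namespace Pool.Agent.Results.MP_e59a69_co.ChainsOfShortEars

open Finset Pool.Agent.H160R2.HF Pool.Agent.R129.Hfp

/-- The component of `x` in the graph with the vertices `V` and the edges `F`. -/
noncomputable def component {V E : Type} [Fintype V] (G : OrGraph V E) (F : Finset E) (x : V) :
    Finset V :=
  open Classical in univ.filter (fun y =>
    Relation.EqvGen (fun a b => ∃ e ∈ F, G.t e = a ∧ G.h e = b) x y)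

/-- The union of the sets `C j` with `j < i`. -/
def earlier {E : Type} [DecidableEq E] {m : ℕ} (C : Fin m → Finset E) (i : Fin m) : Finset E :=
  (univ.filter (fun j => j < i)).biUnion C

/-- `α e, β e` are admissible values of a `1/2`-flow-pair at the edges `e` of `w` (without loops):
the two sums of the outgoing values are zero, `|α e| ≤ 1`, `|β e| ≤ 3`, and `|β e| ≥ 2` if
`α e = 0`. -/
def Admissible {V E : Type} [Fintype V] [Fintype E] [DecidableEq V] [DecidableEq E]
    (G : OrGraph V E) (w : V) (α β : E → ℤ) : Prop :=
  ∑ e ∈ G.cut {w}, (if G.t e = w then α e else - α e) = 0 ∧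
  ∑ e ∈ G.cut {w}, (if G.t e = w then β e else - β e) = 0 ∧
  ∀ e ∈ G.cut {w}, |α e| ≤ 1 ∧ |β e| ≤ 3 ∧ (α e = 0 → 2 ≤ |β e|)

/-- Let `G` be a bridgeless multigraph and `C 0, ..., C (m - 1)` sets of edges, each with at most
four edges which are not in the earlier ones, and such that no edge cut without edges in the earlier
ones has exactly one edge in `C i`.  If at most sixteen components of the graph with the vertices `V`,
whose edges are the elements of the sets `C i`, have an odd number of boundary edges, then `G` has a
`1/2`-flow-pair, and all admissible values at a vertex with three edges extend. -/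
theorem result (V E : Type) [Fintype V] [DecidableEq V] [Fintype E] [DecidableEq E]
    (G : OrGraph V E) (hB : G.Bridgeless) (m : ℕ) (C : Fin m → Finset E)
    (hnew : ∀ i, (C i \ earlier C i).card ≤ 4)
    (hC : ∀ i, ∀ Y : Finset V, Disjoint (G.cut Y) (earlier C i) → (G.cut Y ∩ C i).card ≠ 1)
    (ho : ((univ.image (component G (univ.biUnion C))).filter
      (fun X => Odd (G.cut X).card)).card ≤ 16) :
    (∃ φ₂ φ₄ : E → ℤ, G.IsHalfFlowPair φ₂ φ₄) ∧
      ∀ w, (G.cut {w}).card = 3 → ∀ α β : E → ℤ, Admissible G w α β →
        ∃ φ₂ φ₄ : E → ℤ, G.IsHalfFlowPair φ₂ φ₄ ∧ ∀ e ∈ G.cut {w}, φ₂ e = α e ∧ φ₄ e = β e := by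
  have hE : Ears G := by
    refine ⟨m, C, fun i Y hY => ?_, hnew, fun r hr => odd_le ho r hr⟩
    have h1 : Pool.Agent.TH676.Z.crs G.t G.h Y ∩
        (C i \ (univ.filter (fun j => j < i)).biUnion C) = G.cut Y ∩ C i := by
      ext e
      simp only [mem_inter, mem_sdiff]
      constructor
      · rintro ⟨h1, h2, -⟩
        exact ⟨h1, h2⟩
      · rintro ⟨h1, h2⟩
        exact ⟨h1, h2, fun h3 => (disjoint_left.mp hY) h1 h3⟩
    rw [h1]
    exact hC i Y hY
  obtain ⟨h1, h2⟩ := ears hE (G.cut_card_ne_one hB)
  exact ⟨h1, fun w hw α β ⟨a, b, c⟩ => h2 w hw α β a b c⟩

/-- All bridgeless multigraphs with at most sixteen vertices of odd degree. -/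
theorem sixteen (V E : Type) [Fintype V] [DecidableEq V] [Fintype E] [DecidableEq E]
    (G : OrGraph V E) (hB : G.Bridgeless)
    (ho : (univ.filter (fun v => Odd (G.deg univ v))).card ≤ 16) :
    ∃ φ₂ φ₄ : E → ℤ, G.IsHalfFlowPair φ₂ φ₄ := by
  classical
  have heqv : ∀ x y, Relation.EqvGen (fun a b => ∃ e ∈ univ.biUnion
      (fun _ : Fin 0 => (∅ : Finset E)), G.t e = a ∧ G.h e = b) x y → y = x := by
    intro x y h
    induction h with
    | rel a b hab =>
      obtain ⟨e, he, _⟩ := hab
      simp at he
    | refl a => rfl
    | symm a b _ ih => exact ih.symm
    | trans a b c _ _ i1 i2 => exact i2.trans i1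
  have hcomp : ∀ x, component G (univ.biUnion (fun _ : Fin 0 => (∅ : Finset E))) x = {x} := by
    intro x
    ext y
    unfold component
    rw [mem_filter, mem_singleton]
    exact ⟨fun h => heqv x y h.2, fun h => ⟨mem_univ _, by rw [h]; exact Relation.EqvGen.refl _⟩⟩
  refine (result V E G hB 0 (fun _ => ∅) (fun i => i.elim0) (fun i => i.elim0) ?_).1
  refine le_trans (card_le_card_of_injOn (fun X => X) ?_ (fun _ _ _ _ h => h))
    ((card_image_le (f := fun v => ({v} : Finset V))).trans ho)
  intro X hX
  rw [mem_coe, mem_filter, mem_image] at hX
  obtain ⟨⟨x, _, rfl⟩, hodd⟩ := hX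
  rw [hcomp] at hodd ⊢
  rw [mem_coe, mem_image]
  refine ⟨x, mem_filter.2 ⟨mem_univ _, ?_⟩, rfl⟩
  have h := deg_cut G x
  rw [h]
  exact hodd.add_even (even_two_mul _)

end Pool.Agent.Results.MP_e59a69_co.ChainsOfShortEars
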