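import Pool.Agent.R129.Hfp.Ears
import Pool.Agent.R129.Hfp.Seven

/-!
# `1/2`-flow-pairs: graphs with independence number at most six (MP_e59a69_co)

Let `G` be a bridgeless multigraph in which any seven vertices include two which are joined by an
edge or by two different paths with two edges; for example, a graph with independence number at most
six.  Then `G` has a `1/2`-flow-pair, and at every vertex with exactly three edges (loops not counted)
every admissible choice of the values extends to a `1/2`-flow-pair of `G`.  The order, the degrees and
the connectivity are arbitrary; in particular there may be edge cuts with two or three edges.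

Proof.  By the files `R545/IN` of helper545 every bridgeless graph obtained from `G` by identification
of vertices has a nowhere-zero 4-flow or a quotient which is a Petersen graph.  In the first case every
admissible choice of the values at a vertex of degree three extends to a `1/2`-flow-pair (starting
library `TH499/NF`, Hoffman's theorem).  In the second case the vertices are divided into ten classes,
three edges leave each class, and identification of the vertices outside a class gives a smaller
graph, to which induction is applied.  Every admissible choice of the values at a vertex of the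
Petersen graph extends (starting library `H179R3/HF`), and the flows of the ten graphs can be glued.
-/

set_option autoImplicit false

namespace Pool.Agent.Results.MP_e59a69_co.IndependenceNumberSix

open Finset Pool.Agent.H160R2.HF Pool.Agent.R129.Hfp

/-- The edge `e` joins the vertices `x` and `y`. -/
def Joins {V E : Type} (G : OrGraph V E) (e : E) (x y : V) : Prop :=
  (G.t e = x ∧ G.h e = y) ∨ (G.t e = y ∧ G.h e = x)

/-- The vertices `x` and `y` are joined by an edge, or by two different paths with two edges (for
example, they have two common neighbours). -/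
def Close {V E : Type} (G : OrGraph V E) (x y : V) : Prop :=
  (∃ e, Joins G e x y) ∨
    ∃ (e f e' f' : E) (a b : V), (e ≠ e' ∨ f ≠ f') ∧ Joins G e x a ∧ Joins G f a y ∧
      Joins G e' x b ∧ Joins G f' b y

/-- `α e, β e` are admissible values of a `1/2`-flow-pair at the edges `e` of `w` (without loops):
the two sums of the outgoing values are zero, `|α e| ≤ 1`, `|β e| ≤ 3`, and `|β e| ≥ 2` if
`α e = 0`. -/
def Admissible {V E : Type} [Fintype V] [Fintype E] [DecidableEq V] [DecidableEq E]
    (G : OrGraph V E) (w : V) (α β : E → ℤ) : Prop :=
  ∑ e ∈ G.cut {w}, (if G.t e = w then α e else - α e) = 0 ∧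
  ∑ e ∈ G.cut {w}, (if G.t e = w then β e else - β e) = 0 ∧
  ∀ e ∈ G.cut {w}, |α e| ≤ 1 ∧ |β e| ≤ 3 ∧ (α e = 0 → 2 ≤ |β e|)

/-- Let `G` be a bridgeless multigraph such that any seven different vertices include two which are
joined by an edge or by two different paths with two edges.  Then `G` has a `1/2`-flow-pair, and all
admissible values at a vertex with three edges extend. -/
theorem result (V E : Type) [Fintype V] [DecidableEq V] [Fintype E] [DecidableEq E]
    (G : OrGraph V E) (hB : G.Bridgeless)
    (h7 : ∀ x : Fin 7 → V, Function.Injective x → ∃ i j, i ≠ j ∧ Close G (x i) (x j)) :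
    (∃ φ₂ φ₄ : E → ℤ, G.IsHalfFlowPair φ₂ φ₄) ∧
      ∀ w, (G.cut {w}).card = 3 → ∀ α β : E → ℤ, Admissible G w α β →
        ∃ φ₂ φ₄ : E → ℤ, G.IsHalfFlowPair φ₂ φ₄ ∧ ∀ e ∈ G.cut {w}, φ₂ e = α e ∧ φ₄ e = β e := by
  have h7' : ∀ x : Fin 7 → V, Function.Injective x →
      ∃ i j, i ≠ j ∧ Pool.Agent.R545.IN.Close G.t G.h (x i) (x j) := h7
  obtain ⟨h1, h2⟩ := main (fun G' => ∃ ρ : V → V, G' = Pool.Agent.TH499.NF.mp G ρ)
    (fun G' ρ' ⟨ρ, hρ⟩ => ⟨fun v => ρ' (ρ v), by rw [hρ]; rfl⟩)
    (fun G' ⟨ρ, hρ⟩ hb => by
      subst hρ
      rcases seven' G.t G.h ρ (n1_of hb) h7' with h | h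
      · exact Or.inl (nzK_of h)
      · exact Or.inr h) _ G rfl ⟨id, rfl⟩ (G.cut_card_ne_one hB)
  exact ⟨h1, fun w hw α β ⟨a, b, c⟩ => h2 w hw α β a b c⟩

end Pool.Agent.Results.MP_e59a69_co.IndependenceNumberSix
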