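import Pool.Agent.R242.HF.Two

set_option autoImplicit false

/-!
# `1/2`-flow-pairs: even sets connecting all vertices of odd degree but two (MP_e59a69_co)

`G : OrGraph V E` is a finite multigraph with a fixed orientation and `addEdge G u v` is `G + uv`,
whose edges are `some e` for the edges `e` of `G` and the new edge `none` from `u` to `v`.

Let `G` be bridgeless and let `Z` be an even edge set of `G + uv` such that all vertices whose degree
in `G + uv` is odd lie in one component of `Z`. If `Z` contains the new edge, suppose also that
every 3-edge-cut of `G` whose three edges belong to `Z`, and which is not the star of a vertex, has a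
side with a nowhere-zero 4-flow (the other side being contracted). Then `G` has a `1/2`-flow-pair.

If `Z` does not contain the new edge there is no condition on the cuts: every bridgeless graph with
an even edge set a component of which contains all vertices of odd degree but at most two has a
`1/2`-flow-pair (`closedTrail` below). In particular this holds for every bridgeless cubic graph
with `n` vertices having a circuit of length at least `n - 2` (`longCircuit` below), without any
condition on its 3-edge-cuts. The starting files had this for one missing vertex
(`NearlyFourFlow.minusVertex`), and for spanning trails of `G` from `u` to `v`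
(`NearlyPlusEdge.spanningTrail`, the case where `Z` contains the new edge and is spanning, with the
condition for all 3-edge-cuts).

Proof.  A `T`-join inside `Z`, where `T` is the set of vertices of odd degree of `G + uv`, gives a
nowhere-zero `ℤ₂ × ℤ₂`-flow of `G + uv` whose first coordinate is the indicator of `Z`. By
`NearlyPlusEdge` (starting files) the 3-edge-cuts on which the flow is constant have to be treated.
If `uv ∉ Z` these are disjoint from `Z`, so they separate `u` from `v` and have a side on which
only one vertex, namely `u` or `v`, has odd degree. The graph obtained by contracting the other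
side has exactly two vertices `a`, `b` of odd degree. By Hoffman's circulation theorem there is a
`{-1, 0, 1}`-valued function with net outflow 2 at `a` and inflow 2 at `b`; its support `A` is an
even set connecting `a` and `b`, and with an `a`-`b`-path `P` in `A` the sets `A` and `E \ P` are
even and cover all edges, so that this graph has a nowhere-zero 4-flow.
-/

universe u v

namespace Pool.Agent.Results.MP_e59a69_co.OddVerticesConnected
open Finset Pool.Agent.H160R2.HF Pool.Agent.TH499.NF

/-- Let `G` be bridgeless and `Z` an even edge set of `G + uv` one component of which contains all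
vertices of odd degree of `G + uv`. If `Z` contains the new edge suppose that every 3-edge-cut of
`G` contained in `Z`, other than the stars of vertices, has a side with a nowhere-zero 4-flow. Then
`G` has a `1/2`-flow-pair. -/
theorem result (V : Type u) (E : Type v) [Fintype V] [Fintype E] [DecidableEq V] [DecidableEq E]
    (G : OrGraph V E) (hB : G.Bridgeless) (u v : V) (Z : Finset (Option E))
    (hZ : ∀ w, Even ((addEdge G u v).deg Z w))
    (hconn : ∀ x y, Odd ((addEdge G u v).deg univ x) → Odd ((addEdge G u v).deg univ y) →
      ((addEdge G u v).sub Z).Reachable x y)
    (h3 : none ∈ Z → ∀ X : Finset V, (G.cut X).card = 3 → (∀ e ∈ G.cut X, some e ∈ Z) →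
      (∀ z, G.cut X ≠ G.cut {z}) → NZ4 (contr G X) ∨ NZ4 (contr G Xᶜ)) :
    ∃ φ₂ φ₄ : E → ℤ, G.IsHalfFlowPair φ₂ φ₄ :=
  Pool.Agent.R242.HF.core G hB u v Z hZ hconn fun X h1 h2 h3' h4 => h3 h4 X h1 h3' h2

/-- The case in which `Z` does not contain the new edge: an even edge set `C` of `G` a component of
which contains all vertices of odd degree with the possible exception of `u` and `v`. -/
theorem closedTrail (V : Type u) (E : Type v) [Fintype V] [Fintype E] [DecidableEq V]
    [DecidableEq E] (G : OrGraph V E) (hB : G.Bridgeless) (u v : V) (C : Finset E)
    (hC : ∀ w, Even (G.deg C w))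
    (hconn : ∀ x y, Odd (G.deg univ x) → Odd (G.deg univ y) → x ≠ u → x ≠ v → y ≠ u → y ≠ v →
      (G.sub C).Reachable x y) :
    ∃ φ₂ φ₄ : E → ℤ, G.IsHalfFlowPair φ₂ φ₄ :=
  Pool.Agent.R242.HF.closed G hB u v C hC hconn

/-- Bridgeless cubic graphs with a circuit `C` through all vertices other than `u` and `v`. -/
theorem longCircuit (V : Type u) (E : Type v) [Fintype V] [Fintype E] [DecidableEq V]
    [DecidableEq E] (G : OrGraph V E) (hB : G.Bridgeless) (_hc : G.Cubic) (u v : V) (C : Finset E)
    (hC : ∀ w, G.deg C w = 0 ∨ G.deg C w = 2)
    (hconn : ∀ x y, x ≠ u → x ≠ v → y ≠ u → y ≠ v → (G.sub C).Reachable x y) :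
    ∃ φ₂ φ₄ : E → ℤ, G.IsHalfFlowPair φ₂ φ₄ :=
  closedTrail V E G hB u v C
    (fun w => by rcases hC w with h | h <;> rw [h] <;> decide)
    fun x y _ _ a b c d => hconn x y a b c d

end Pool.Agent.Results.MP_e59a69_co.OddVerticesConnected
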