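import Pool.Agent.R890.FF.HfpFin

/-!
# `1/2`-flow-pairs of bridgeless graphs with vertex cover number at most nine (MP_e59a69_co)

Circuits with at most four edges can be contracted when one looks for nowhere-zero flows with
values in the group of order four. By the theorem of the starting library on graphs with at most 16
odd vertices a smallest graph with neither such a flow nor a Petersen quotient has at least 18
vertices of odd degree; it has girth at least five, and this forces ten vertices in every vertex
cover. So `G` has such a flow or a Petersen quotient
(a partition into ten classes, each with three outgoing edges, whose quotient is the Petersen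
graph). In the first case Hoffman's theorem gives a `1/2`-flow-pair with prescribed values at a given
vertex with three edges (starting files). In the second case all classes but one are identified, for
each of the ten classes; the smaller graphs are in the same class of graphs, so by induction they have
`1/2`-flow-pairs with prescribed values at a vertex with three edges. One of the ten is chosen first
(it contains the given vertex); it determines the values at one vertex of the Petersen graph, and
every allowed triple of values at one vertex extends to a `1/2`-flow-pair of the Petersen graph (108
cases, checked by the kernel). The other nine graphs are glued with the values prescribed by it.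
-/

set_option autoImplicit false

namespace Pool.Agent.Results.MP_e59a69_co.VertexCoverNine

open Finset Pool.Agent.H160R2.HF

/-- Let `G` be a bridgeless multigraph and `W` a set of at most nine vertices which meets all edges
other than loops.
Then `G` has a `1/2`-flow-pair. Moreover, if exactly three edges join the vertex `w` to other
vertices, then all values `α, β` on these three edges that are allowed by the definition and by the
conservation of flow at `w` are taken by a `1/2`-flow-pair of `G`. -/
theorem result (V E : Type) [Fintype V] [Fintype E] [DecidableEq V] [DecidableEq E]
    (G : OrGraph V E) (hB : G.Bridgeless)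
    (W : Finset V) (h9 : W.card ≤ 9) (hW : ∀ e, G.t e ≠ G.h e → G.t e ∈ W ∨ G.h e ∈ W) :
    (∃ φ₂ φ₄ : E → ℤ, G.IsHalfFlowPair φ₂ φ₄) ∧
      ∀ (w : V) (α β : E → ℤ), (G.cut {w}).card = 3 →
        (∀ e ∈ G.cut {w}, |α e| ≤ 1 ∧ |β e| ≤ 3 ∧ (α e = 0 → 2 ≤ |β e|)) →
        ∑ e with G.t e = w, α e = ∑ e with G.h e = w, α e →
        ∑ e with G.t e = w, β e = ∑ e with G.h e = w, β e →
        ∃ φ₂ φ₄ : E → ℤ, G.IsHalfFlowPair φ₂ φ₄ ∧
          ∀ e ∈ G.cut {w}, φ₂ e = α e ∧ φ₄ e = β e :=
  R890.FF.hfp_small G hB (Or.inr ⟨W, h9, hW⟩)

end Pool.Agent.Results.MP_e59a69_co.VertexCoverNine
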